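import Mathlib

set_option autoImplicit false
set_option linter.all false

open Finset BigOperators

namespace Pool.Agent.Results.MP_239067_co.FlowNineHalves

/-- Tails of the 84 edges of the graph `G` on the vertices `0, ..., 55`. -/
def tailList : List ℕ :=
  [1, 0, 3, 0, 5, 6, 7, 9, 9, 11, 9, 13, 14, 1, 2, 2, 3, 4, 4, 5, 7, 8, 8, 14, 10, 15, 19, 18, 21, 18, 23, 24, 25, 27, 27, 29, 27, 31, 32, 19, 20, 20, 21, 22, 22, 23, 25, 26, 26, 32, 28, 33, 37, 36, 39, 36, 41, 42, 43, 45, 45, 47, 45, 49, 50, 37, 38, 38, 39, 40, 40, 41, 43, 44, 44, 50, 46, 51, 54, 54, 54, 1, 19, 37]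

/-- Heads of the 84 edges of the graph `G`. -/
def headList : List ℕ :=
  [2, 3, 4, 5, 6, 7, 8, 10, 11, 12, 13, 14, 15, 17, 6, 16, 16, 17, 11, 15, 13, 10, 12, 12, 16, 17, 20, 21, 22, 23, 24, 25, 26, 28, 29, 30, 31, 32, 33, 35, 24, 34, 34, 35, 29, 33, 31, 28, 30, 30, 34, 35, 38, 39, 40, 41, 42, 43, 44, 46, 47, 48, 49, 50, 51, 53, 42, 52, 52, 53, 47, 51, 49, 46, 48, 48, 52, 53, 0, 18, 36, 55, 55, 55]

/-- Twice the values of a nowhere-zero `9/2`-flow on `G`. -/
def flowList : List ℤ :=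
  [-7, 6, 4, -3, -5, -7, -4, 5, -2, 4, -3, -6, -4, 4, -2, -5, 2, -2, 6, 2, -3, -2, -2, -2, 3, -2, -7, 6, 4, -3, -5, -7, -4, 5, -2, 4, -3, -6, -4, 4, -2, -5, 2, -2, 6, 2, -3, -2, -2, -2, 3, -2, 4, -3, -5, -3, -5, -3, -5, -6, 2, 4, 4, 6, 3, 2, 2, 2, 2, -7, 2, 2, 2, 2, -7, 3, -4, 5, 3, 3, -6, 3, 3, -6]

theorem tail_lt : ∀ e : Fin 84, tailList.getD e 0 < 56 := by decide +kernel
theorem head_lt : ∀ e : Fin 84, headList.getD e 0 < 56 := by decide +kernel

/-- Tail of an edge. -/
def tl (e : Fin 84) : Fin 56 := ⟨tailList.getD e 0, tail_lt e⟩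
/-- Head of an edge. -/
def hd (e : Fin 84) : Fin 56 := ⟨headList.getD e 0, head_lt e⟩
/-- Twice the flow value of an edge. -/
def fl (e : Fin 84) : ℤ := flowList.getD e 0

/-- Exactly one of three Booleans is true. -/
def ex1 (a b c : Bool) : Bool := (a && !b && !c) || (!a && b && !c) || (!a && !b && c)

/-- Conjunction over both Booleans. -/
def allB (f : Bool → Bool) : Bool := f false && f true

theorem allB_elim {f : Bool → Bool} (h : allB f = true) (b : Bool) : f b = true := by
  unfold allB at h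
  rw [Bool.and_eq_true] at h
  cases b
  · exact h.1
  · exact h.2

theorem cond_elim {c : Bool} {d : Bool} (h : cond c d true = true) (hc : c = true) : d = true := by
  rw [hc] at h
  exact h

/-- The twenty matchings of one block, as bit masks. -/
def masks : List ℕ :=
  [16914003, 22155539, 21629219, 58983507, 25977922, 5550226, 11314210, 5023906, 54528301, 2299433, 44368937, 38078633, 16807500, 22049036, 5599368, 2143788, 202066624, 213598464, 234916564, 246448404]

/-- Search over all Boolean assignments of one block. -/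
def search : Bool :=
  allB fun x1 => allB fun x3 => allB fun x26 => 
    cond (ex1 x1 x3 x26) (allB fun x2 => allB fun x16 => 
    cond (ex1 x1 x2 x16) (allB fun x17 => allB fun x18 => 
    cond (ex1 x2 x17 x18) (allB fun x4 => allB fun x19 => 
    cond (ex1 x3 x4 x19) (allB fun x5 => allB fun x14 => 
    cond (ex1 x4 x5 x14) (allB fun x0 => allB fun x15 => 
    cond (ex1 x0 x14 x15) (allB fun x24 => 
    cond (ex1 x15 x16 x24) (allB fun x13 => allB fun x27 => 
    cond (ex1 x0 x13 x27) (allB fun x25 => 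
    cond (ex1 x13 x17 x25) (allB fun x12 => 
    cond (ex1 x12 x19 x25) (allB fun x6 => allB fun x20 => 
    cond (ex1 x5 x6 x20) (allB fun x21 => allB fun x22 => 
    cond (ex1 x6 x21 x22) (allB fun x7 => 
    cond (ex1 x7 x21 x24) (allB fun x8 => allB fun x10 => 
    cond (ex1 x7 x8 x10) (allB fun x9 => 
    cond (ex1 x8 x9 x18) (allB fun x23 => 
    cond (ex1 x9 x22 x23) (allB fun x11 => 
    cond (ex1 x10 x11 x20) (
    cond (ex1 x11 x12 x23) (
    masks.any fun m => [(0, x0), (1, x1), (2, x2), (3, x3), (4, x4), (5, x5), (6, x6), (7, x7), (8, x8), (9, x9), (10, x10), (11, x11), (12, x12), (13, x13), (14, x14), (15, x15), (16, x16), (17, x17), (18, x18), (19, x19), (20, x20), (21, x21), (22, x22), (23, x23), (24, x24), (25, x25), (26, x26), (27, x27)].all fun p => m.testBit p.1 == p.2) true) true) true) true) true) true) true) true) true) true) true) true) true) true) true) true) true) true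

theorem search_true : search = true := by decide +kernel

theorem block (x0 x1 x2 x3 x4 x5 x6 x7 x8 x9 x10 x11 x12 x13 x14 x15 x16 x17 x18 x19 x20 x21 x22 x23 x24 x25 x26 x27 : Bool)
    (h0 : ex1 x1 x3 x26 = true)
    (h1 : ex1 x0 x13 x27 = true)
    (h2 : ex1 x0 x14 x15 = true)
    (h3 : ex1 x1 x2 x16 = true)
    (h4 : ex1 x2 x17 x18 = true)
    (h5 : ex1 x3 x4 x19 = true)
    (h6 : ex1 x4 x5 x14 = true)
    (h7 : ex1 x5 x6 x20 = true)
    (h8 : ex1 x6 x21 x22 = true)
    (h9 : ex1 x7 x8 x10 = true)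
    (h10 : ex1 x7 x21 x24 = true)
    (h11 : ex1 x8 x9 x18 = true)
    (h12 : ex1 x9 x22 x23 = true)
    (h13 : ex1 x10 x11 x20 = true)
    (h14 : ex1 x11 x12 x23 = true)
    (h15 : ex1 x12 x19 x25 = true)
    (h16 : ex1 x15 x16 x24 = true)
    (h17 : ex1 x13 x17 x25 = true) :
    (masks.any fun m => [(0, x0), (1, x1), (2, x2), (3, x3), (4, x4), (5, x5), (6, x6), (7, x7), (8, x8), (9, x9), (10, x10), (11, x11), (12, x12), (13, x13), (14, x14), (15, x15), (16, x16), (17, x17), (18, x18), (19, x19), (20, x20), (21, x21), (22, x22), (23, x23), (24, x24), (25, x25), (26, x26), (27, x27)].all fun p => m.testBit p.1 == p.2) = true := by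
  have h := search_true
  unfold search at h
  replace h := allB_elim h x1
  replace h := allB_elim h x3
  replace h := allB_elim h x26
  replace h := cond_elim h h0
  replace h := allB_elim h x2
  replace h := allB_elim h x16
  replace h := cond_elim h h3
  replace h := allB_elim h x17
  replace h := allB_elim h x18
  replace h := cond_elim h h4
  replace h := allB_elim h x4
  replace h := allB_elim h x19
  replace h := cond_elim h h5
  replace h := allB_elim h x5
  replace h := allB_elim h x14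
  replace h := cond_elim h h6
  replace h := allB_elim h x0
  replace h := allB_elim h x15
  replace h := cond_elim h h2
  replace h := allB_elim h x24
  replace h := cond_elim h h16
  replace h := allB_elim h x13
  replace h := allB_elim h x27
  replace h := cond_elim h h1
  replace h := allB_elim h x25
  replace h := cond_elim h h17
  replace h := allB_elim h x12
  replace h := cond_elim h h15
  replace h := allB_elim h x6
  replace h := allB_elim h x20
  replace h := cond_elim h h7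
  replace h := allB_elim h x21
  replace h := allB_elim h x22
  replace h := cond_elim h h8
  replace h := allB_elim h x7
  replace h := cond_elim h h10
  replace h := allB_elim h x8
  replace h := allB_elim h x10
  replace h := cond_elim h h9
  replace h := allB_elim h x9
  replace h := cond_elim h h11
  replace h := allB_elim h x23
  replace h := cond_elim h h12
  replace h := allB_elim h x11
  replace h := cond_elim h h13
  replace h := cond_elim h h14
  exact h

/-- First, second and third edge at a vertex of a block (edges 26 and 27 leave the block). -/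
def tA : List ℕ := [1, 0, 0, 1, 2, 3, 4, 5, 6, 7, 7, 8, 9, 10, 11, 12, 15, 13]
def tB : List ℕ := [3, 13, 14, 2, 17, 4, 5, 6, 21, 8, 21, 9, 22, 11, 12, 19, 16, 17]
def tC : List ℕ := [26, 27, 15, 16, 18, 19, 14, 20, 22, 10, 24, 18, 23, 20, 23, 25, 24, 25]

theorem tA_lt : ∀ v : Fin 18, tA.getD v 0 < 28 := by decide +kernel
theorem tB_lt : ∀ v : Fin 18, tB.getD v 0 < 28 := by decide +kernel
theorem tC_lt : ∀ v : Fin 18, tC.getD v 0 < 28 := by decide +kernel

def ta (v : Fin 18) : Fin 28 := ⟨tA.getD v 0, tA_lt v⟩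
def tb (v : Fin 18) : Fin 28 := ⟨tB.getD v 0, tB_lt v⟩
def tc (v : Fin 18) : Fin 28 := ⟨tC.getD v 0, tC_lt v⟩

theorem block' (x : Fin 28 → Bool) (h : ∀ v, ex1 (x (ta v)) (x (tb v)) (x (tc v)) = true) :
    ∃ m ∈ masks, ∀ e : Fin 28, m.testBit e = x e := by
  have hb := block (x 0) (x 1) (x 2) (x 3) (x 4) (x 5) (x 6) (x 7) (x 8) (x 9) (x 10) (x 11) (x 12) (x 13) (x 14) (x 15) (x 16) (x 17) (x 18) (x 19) (x 20) (x 21) (x 22) (x 23) (x 24) (x 25) (x 26) (x 27)
    (h 0) (h 1) (h 2) (h 3) (h 4) (h 5) (h 6) (h 7) (h 8) (h 9) (h 10) (h 11) (h 12) (h 13) (h 14) (h 15) (h 16) (h 17)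
  rw [List.any_eq_true] at hb
  obtain ⟨m, hm, hp⟩ := hb
  refine ⟨m, hm, fun e => ?_⟩
  rw [List.all_eq_true] at hp
  have he : ((e : ℕ), x e) ∈ [(0, x 0), (1, x 1), (2, x 2), (3, x 3), (4, x 4), (5, x 5), (6, x 6), (7, x 7), (8, x 8), (9, x 9), (10, x 10), (11, x 11), (12, x 12), (13, x 13), (14, x 14), (15, x 15), (16, x 16), (17, x 17), (18, x 18), (19, x 19), (20, x 20), (21, x 21), (22, x 22), (23, x 23), (24, x 24), (25, x 25), (26, x 26), (27, x 27)] := by
    fin_cases e <;> simp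
  exact beq_iff_eq.mp (hp _ he)

/-- The three edges at a vertex of `G`. -/
def iA : List ℕ := [1, 0, 0, 1, 2, 3, 4, 5, 6, 7, 7, 8, 9, 10, 11, 12, 15, 13, 27, 26, 26, 27, 28, 29, 30, 31, 32, 33, 33, 34, 35, 36, 37, 38, 41, 39, 53, 52, 52, 53, 54, 55, 56, 57, 58, 59, 59, 60, 61, 62, 63, 64, 67, 65, 78, 81]
def iB : List ℕ := [3, 13, 14, 2, 17, 4, 5, 6, 21, 8, 21, 9, 22, 11, 12, 19, 16, 17, 29, 39, 40, 28, 43, 30, 31, 32, 47, 34, 47, 35, 48, 37, 38, 45, 42, 43, 55, 65, 66, 54, 69, 56, 57, 58, 73, 60, 73, 61, 74, 63, 64, 71, 68, 69, 79, 82]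
def iC : List ℕ := [78, 81, 15, 16, 18, 19, 14, 20, 22, 10, 24, 18, 23, 20, 23, 25, 24, 25, 79, 82, 41, 42, 44, 45, 40, 46, 48, 36, 50, 44, 49, 46, 49, 51, 50, 51, 80, 83, 67, 68, 70, 71, 66, 72, 74, 62, 76, 70, 75, 72, 75, 77, 76, 77, 80, 83]

theorem iA_lt : ∀ v : Fin 56, iA.getD v 0 < 84 := by decide +kernel
theorem iB_lt : ∀ v : Fin 56, iB.getD v 0 < 84 := by decide +kernel
theorem iC_lt : ∀ v : Fin 56, iC.getD v 0 < 84 := by decide +kernel

def ia (v : Fin 56) : Fin 84 := ⟨iA.getD v 0, iA_lt v⟩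
def ib (v : Fin 56) : Fin 84 := ⟨iB.getD v 0, iB_lt v⟩
def ic (v : Fin 56) : Fin 84 := ⟨iC.getD v 0, iC_lt v⟩

theorem inc_spec : ∀ v : Fin 56, ∀ e : Fin 84,
    (tl e = v ∨ hd e = v) ↔ (e = ia v ∨ e = ib v ∨ e = ic v) := by decide +kernel

theorem inc_ne : ∀ v : Fin 56, ia v ≠ ib v ∧ ia v ≠ ic v ∧ ib v ≠ ic v := by decide +kernel

theorem ex1_of_card (S : Finset (Fin 84)) (v : Fin 56)
    (h : (S.filter (fun e => tl e = v ∨ hd e = v)).card = 1) :
    ex1 (decide (ia v ∈ S)) (decide (ib v ∈ S)) (decide (ic v ∈ S)) = true := by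
  have hs : S.filter (fun e => tl e = v ∨ hd e = v)
      = ({ia v, ib v, ic v} : Finset (Fin 84)).filter (fun e => e ∈ S) := by
    ext e
    simp only [Finset.mem_filter, Finset.mem_insert, Finset.mem_singleton]
    rw [inc_spec v e]
    tauto
  rw [hs] at h
  obtain ⟨h1, h2, h3⟩ := inc_ne v
  by_cases ha : ia v ∈ S <;> by_cases hb : ib v ∈ S <;> by_cases hc : ic v ∈ S <;>
    simp [Finset.filter_insert, Finset.filter_singleton, ha, hb, hc, h1, h2, h3, ex1] at h ⊢

/-- The edge of `G` which is edge `k` of block `j`. -/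
def emb (j : Fin 3) (k : Fin 28) : Fin 84 :=
  if h : k.val < 26 then ⟨26 * j.val + k.val, by omega⟩
  else ⟨78 + 3 * (k.val - 26) + j.val, by omega⟩

/-- The vertex of `G` which is vertex `v` of block `j`. -/
def vm (j : Fin 3) (v : Fin 18) : Fin 56 := ⟨18 * j.val + v.val, by omega⟩

theorem emb_spec : ∀ (j : Fin 3) (v : Fin 18),
    ia (vm j v) = emb j (ta v) ∧ ib (vm j v) = emb j (tb v) ∧ ic (vm j v) = emb j (tc v) := by
  decide +kernel

theorem top_spec : ia 54 = emb 0 26 ∧ ib 54 = emb 1 26 ∧ ic 54 = emb 2 26 := by decide +kernel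

/-- No four of the twenty matchings of a block cover its edges if two of them contain edge 26. -/
def noCover : Bool :=
  masks.all fun a => masks.all fun b => cond (a.testBit 26 && b.testBit 26)
    (masks.all fun c => masks.all fun d =>
      !((List.range 28).all fun e => a.testBit e || b.testBit e || c.testBit e || d.testBit e))
    true

theorem noCover_true : noCover = true := by decide +kernel

theorem noTwo (M : Fin 4 → Finset (Fin 84))
    (hM : ∀ (i : Fin 4) (v : Fin 56), ((M i).filter (fun e => tl e = v ∨ hd e = v)).card = 1)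
    (hc : ∀ e : Fin 84, ∃ i : Fin 4, e ∈ M i) (j : Fin 3) (i i' : Fin 4) (hne : i ≠ i')
    (h1 : emb j 26 ∈ M i) (h2 : emb j 26 ∈ M i') : False := by
  have key : ∀ r : Fin 4, ∃ m ∈ masks, ∀ e : Fin 28, m.testBit e = decide (emb j e ∈ M r) := by
    intro r
    apply block' (fun e => decide (emb j e ∈ M r))
    intro v
    have := ex1_of_card (M r) (vm j v) (hM r (vm j v))
    rw [(emb_spec j v).1, (emb_spec j v).2.1, (emb_spec j v).2.2] at this
    exact this
  have hkl : ∀ i i' : Fin 4, i ≠ i' → ∃ k l : Fin 4, ∀ r : Fin 4, r = i ∨ r = i' ∨ r = k ∨ r = l := by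
    decide
  obtain ⟨k, l, hkl⟩ := hkl i i' hne
  obtain ⟨a, ha, ha'⟩ := key i
  obtain ⟨b, hb, hb'⟩ := key i'
  obtain ⟨c, hc1, hc'⟩ := key k
  obtain ⟨d, hd1, hd'⟩ := key l
  have h := noCover_true
  unfold noCover at h
  rw [List.all_eq_true] at h
  replace h := h a ha
  rw [List.all_eq_true] at h
  replace h := h b hb
  have hab : (a.testBit 26 && b.testBit 26) = true := by
    have e1 := ha' 26
    have e2 := hb' 26
    rw [decide_eq_true h1] at e1
    rw [decide_eq_true h2] at e2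
    rw [Bool.and_eq_true]
    exact ⟨e1, e2⟩
  replace h := cond_elim h hab
  rw [List.all_eq_true] at h
  replace h := h c hc1
  rw [List.all_eq_true] at h
  replace h := h d hd1
  rw [Bool.not_eq_true'] at h
  have h' : ((List.range 28).all fun e =>
      a.testBit e || b.testBit e || c.testBit e || d.testBit e) = true := by
    rw [List.all_eq_true]
    intro e he
    have he' : e < 28 := List.mem_range.mp he
    obtain ⟨r, hr⟩ := hc (emb j ⟨e, he'⟩)
    have e1 := ha' ⟨e, he'⟩
    have e2 := hb' ⟨e, he'⟩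
    have e3 := hc' ⟨e, he'⟩
    have e4 := hd' ⟨e, he'⟩
    simp only at e1 e2 e3 e4
    rw [e1, e2, e3, e4]
    simp only [Bool.or_eq_true, decide_eq_true_eq]
    rcases hkl r with rfl | rfl | rfl | rfl
    · exact Or.inl (Or.inl (Or.inl hr))
    · exact Or.inl (Or.inl (Or.inr hr))
    · exact Or.inl (Or.inr hr)
    · exact Or.inr hr
  rw [h'] at h
  exact Bool.noConfusion h

theorem no_cover : ¬ ∃ M : Fin 4 → Finset (Fin 84),
    (∀ (i : Fin 4) (v : Fin 56), ((M i).filter (fun e => tl e = v ∨ hd e = v)).card = 1) ∧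
      ∀ e : Fin 84, ∃ i : Fin 4, e ∈ M i := by
  rintro ⟨M, hM, hc⟩
  have hg : ∀ i : Fin 4, ∃ j : Fin 3, emb j 26 ∈ M i := by
    intro i
    have h := ex1_of_card (M i) 54 (hM i 54)
    rw [top_spec.1, top_spec.2.1, top_spec.2.2] at h
    by_cases h0 : emb 0 26 ∈ M i
    · exact ⟨0, h0⟩
    by_cases h1 : emb 1 26 ∈ M i
    · exact ⟨1, h1⟩
    by_cases h2 : emb 2 26 ∈ M i
    · exact ⟨2, h2⟩
    rw [decide_eq_false h0, decide_eq_false h1, decide_eq_false h2] at h
    exact Bool.noConfusion h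
  choose g hg using hg
  obtain ⟨i, i', hne, he⟩ := Fintype.exists_ne_map_eq_of_card_lt g (by decide)
  exact noTwo M hM hc (g i) i i' hne (hg i) (he ▸ hg i')

theorem loopless : ∀ e : Fin 84, tl e ≠ hd e := by decide +kernel

theorem simple : ∀ e e' : Fin 84,
    (tl e = tl e' ∧ hd e = hd e') ∨ (tl e = hd e' ∧ hd e = tl e') → e = e' := by decide +kernel

theorem cubic : ∀ v : Fin 56, (Finset.univ.filter (fun e : Fin 84 => tl e = v)).card
    + (Finset.univ.filter (fun e : Fin 84 => hd e = v)).card = 3 := by decide +kernel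

theorem fl_bounds : ∀ e : Fin 84, 2 ≤ |fl e| ∧ |fl e| ≤ 7 := by decide +kernel

theorem fl_kirchhoff : ∀ v : Fin 56, ∑ e ∈ Finset.univ.filter (fun e : Fin 84 => tl e = v), fl e
    = ∑ e ∈ Finset.univ.filter (fun e : Fin 84 => hd e = v), fl e := by decide +kernel

/-- `Simple cubic graph` on `Fin n` with edge set `Fin m`, tails `s` and heads `t`: no loops, no
parallel edges, three edges at every vertex. -/
def SimpleCubic {n m : ℕ} (s t : Fin m → Fin n) : Prop :=
  (∀ e, s e ≠ t e) ∧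
  (∀ e e', (s e = s e' ∧ t e = t e') ∨ (s e = t e' ∧ t e = s e') → e = e') ∧
  ∀ v : Fin n, (Finset.univ.filter (fun e => s e = v)).card
    + (Finset.univ.filter (fun e => t e = v)).card = 3

/-- There is a nowhere-zero `r`-flow: values `1 ≤ |f e| ≤ r - 1`, Kirchhoff law at each vertex. -/
def HasFlow {n m : ℕ} (s t : Fin m → Fin n) (r : ℝ) : Prop :=
  ∃ f : Fin m → ℝ, (∀ e, 1 ≤ |f e| ∧ |f e| ≤ r - 1) ∧
    ∀ v : Fin n, ∑ e ∈ Finset.univ.filter (fun e => s e = v), f e
      = ∑ e ∈ Finset.univ.filter (fun e => t e = v), f e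

/-- Four perfect matchings (possibly repeated) cover all edges. -/
def FourCover {n m : ℕ} (s t : Fin m → Fin n) : Prop :=
  ∃ M : Fin 4 → Finset (Fin m),
    (∀ (i : Fin 4) (v : Fin n), ((M i).filter (fun e => s e = v ∨ t e = v)).card = 1) ∧
      ∀ e : Fin m, ∃ i : Fin 4, e ∈ M i

theorem hasFlow : HasFlow tl hd (9 / 2) := by
  refine ⟨fun e => (fl e : ℝ) / 2, fun e => ?_, fun v => ?_⟩
  · obtain ⟨h1, h2⟩ := fl_bounds e
    have h1' : (2 : ℝ) ≤ |(fl e : ℝ)| := by
      rw [← Int.cast_abs]; exact_mod_cast h1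
    have h2' : |(fl e : ℝ)| ≤ 7 := by
      rw [← Int.cast_abs]; exact_mod_cast h2
    rw [abs_div, abs_two]
    constructor
    · linarith
    · linarith
  · rw [← Finset.sum_div, ← Finset.sum_div]
    congr 1
    exact_mod_cast fl_kirchhoff v

theorem result :
    (∃ s t : Fin 84 → Fin 56, SimpleCubic s t ∧ HasFlow s t (9 / 2) ∧ ¬ FourCover s t) ∧
    ∀ ε : ℝ, (∀ (n m : ℕ) (s t : Fin m → Fin n),
        (∀ e, s e ≠ t e) →
        (∀ v : Fin n, (Finset.univ.filter (fun e => s e = v)).card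
            + (Finset.univ.filter (fun e => t e = v)).card = 3) →
        (∃ r : ℝ, r < 4 + ε ∧ HasFlow s t r) → FourCover s t) → ε ≤ 1 / 2 := by
  refine ⟨⟨tl, hd, ⟨loopless, simple, cubic⟩, hasFlow, no_cover⟩, fun ε h => ?_⟩
  by_contra hε
  rw [not_le] at hε
  exact no_cover (h 56 84 tl hd loopless cubic ⟨9 / 2, by linarith, hasFlow⟩)

end Pool.Agent.Results.MP_239067_co.FlowNineHalves
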